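import Pool.Agent.W544.PG.Defs3
import Pool.Agent.W927.PG.Coord

/-!
# Hodge substructures of powers: from orthonormal coordinates to rational ones
-/

open Matrix Finset Module

namespace Pool.Agent.W563.PG.Gq

open Pool.Agent.W544.PG

noncomputable section

/-! ### Rational descent -/

lemma descend {N : Type} (V : Submodule ℚ (N → ℚ)) (w : N → ℚ)
    (h : (fun J => (w J : ℂ)) ∈
      Submodule.span ℂ ((fun (t : N → ℚ) (J : N) => (t J : ℂ)) '' (V : Set (N → ℚ)))) : w ∈ V := by
  obtain ⟨ρ, hρ⟩ : ∃ ρ : ℂ →ₗ[ℚ] ℚ, ∀ x : ℚ, ρ (x : ℂ) = x := by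
    obtain ⟨ρ, hρ⟩ := (Algebra.linearMap ℚ ℂ).exists_leftInverse_of_injective
      (LinearMap.ker_eq_bot.2 (algebraMap ℚ ℂ).injective)
    exact ⟨ρ, fun x => LinearMap.congr_fun hρ x⟩
  have key : ∀ z ∈ Submodule.span ℂ
      ((fun (t : N → ℚ) (J : N) => (t J : ℂ)) '' (V : Set (N → ℚ))),
      ∀ c : ℂ, (fun J => ρ (c * z J)) ∈ V := by
    intro z hz
    induction hz using Submodule.span_induction with
    | mem z hz =>
      obtain ⟨t, ht, rfl⟩ := hz
      intro c
      have h1 : (fun J => ρ (c * (t J : ℂ))) = ρ c • t := by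
        funext J
        have h2 : c * (t J : ℂ) = (t J) • c := by
          rw [Algebra.smul_def, mul_comm]
          rfl
        rw [h2, map_smul, Pi.smul_apply, smul_eq_mul, smul_eq_mul, mul_comm]
      rw [h1]
      exact V.smul_mem _ ht
    | zero =>
      intro c
      have h1 : (fun J : N => ρ (c * (0 : N → ℂ) J)) = 0 := by
        funext J
        simp
      rw [h1]
      exact V.zero_mem
    | add a b _ _ iha ihb =>
      intro c
      have h1 : (fun J => ρ (c * (a + b) J)) = (fun J => ρ (c * a J)) + fun J => ρ (c * b J) := by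
        funext J
        simp [mul_add]
      rw [h1]
      exact V.add_mem (iha c) (ihb c)
    | smul a z _ ih =>
      intro c
      have h1 : (fun J => ρ (c * (a • z) J)) = fun J => ρ (c * a * z J) := by
        funext J
        simp [mul_assoc]
      rw [h1]
      exact ih (c * a)
  have h3 := key _ h 1
  simpa [hρ] using h3

/-! ### Pull-backs -/

section pulls
variable {n k : ℕ}

/-- pull-back as a linear map -/
def pullL (P : Matrix (Fin n) (Fin n) ℂ) :
    ((Fin k → Fin n) → ℂ) →ₗ[ℂ] ((Fin k → Fin n) → ℂ) where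
  toFun := pull P
  map_add' a b := by
    funext J
    simp only [pull, Pi.add_apply, mul_add, Finset.sum_add_distrib]
  map_smul' c a := by
    funext J
    simp only [pull, Pi.smul_apply, smul_eq_mul, RingHom.id_apply, Finset.mul_sum]
    exact Finset.sum_congr rfl fun K _ => by ring

lemma pull_pull (g h : Matrix (Fin n) (Fin n) ℂ) (s : (Fin k → Fin n) → ℂ) :
    pull h (pull g s) = pull (g * h) s := by
  funext J
  simp only [pull, Finset.mul_sum]
  rw [Finset.sum_comm]
  refine Finset.sum_congr rfl fun K _ => ?_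
  have h1 : ∏ j, (g * h) (K j) (J j) = ∑ L : Fin k → Fin n, ∏ j, g (K j) (L j) * h (L j) (J j) := by
    simp only [Matrix.mul_apply]
    rw [Finset.prod_univ_sum, Fintype.piFinset_univ]
  rw [h1, Finset.sum_mul]
  refine Finset.sum_congr rfl fun L _ => ?_
  rw [Finset.prod_mul_distrib]
  ring

lemma pull_one (s : (Fin k → Fin n) → ℂ) : pull 1 s = s := by
  funext J
  rw [pull, Finset.sum_eq_single J]
  · simp
  · intro K _ hK
    obtain ⟨j, hj⟩ := Function.ne_iff.1 hK
    have h1 : ∏ j, (1 : Matrix (Fin n) (Fin n) ℂ) (K j) (J j) = 0 :=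
      Finset.prod_eq_zero (Finset.mem_univ j) (Matrix.one_apply_ne hj)
    exact mul_eq_zero_of_left h1 _
  · simp

lemma act_pull {g Y Z : Matrix (Fin n) (Fin n) ℂ} (hY : Y * g = g * Z)
    (s : (Fin k → Fin n) → ℂ) : act Z (pull g s) = pull g (act Y s) := by
  funext J
  -- the part of the product away from `j`
  have hpr : ∀ (j : Fin k) (K J' : Fin k → Fin n), ∏ i, g (K i) (J' i) =
      g (K j) (J' j) * ∏ i ∈ univ.erase j, g (K i) (J' i) := fun j K J' =>
    (Finset.mul_prod_erase univ (fun i => g (K i) (J' i)) (Finset.mem_univ j)).symm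
  have hL : ∀ j : Fin k, ∑ l, Z l (J j) * pull g s (Function.update J j l) =
      ∑ K : Fin k → Fin n, (g * Z) (K j) (J j) *
        ((∏ i ∈ univ.erase j, g (K i) (J i)) * s K) := by
    intro j
    simp only [pull, Finset.mul_sum]
    rw [Finset.sum_comm]
    refine Finset.sum_congr rfl fun K _ => ?_
    rw [Matrix.mul_apply, Finset.sum_mul]
    refine Finset.sum_congr rfl fun l _ => ?_
    rw [hpr j, Function.update_self]
    have h1 : ∏ i ∈ univ.erase j, g (K i) (Function.update J j l i) =
        ∏ i ∈ univ.erase j, g (K i) (J i) :=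
      Finset.prod_congr rfl fun i hi => by
        rw [Function.update_of_ne (Finset.ne_of_mem_erase hi)]
    rw [h1]
    ring
  have hR : ∀ j : Fin k, ∑ K : Fin k → Fin n, (∏ i, g (K i) (J i)) *
      ∑ m, Y m (K j) * s (Function.update K j m) =
      ∑ K : Fin k → Fin n, (Y * g) (K j) (J j) *
        ((∏ i ∈ univ.erase j, g (K i) (J i)) * s K) := by
    intro j
    simp only [Finset.mul_sum, Matrix.mul_apply, Finset.sum_mul]
    rw [← Finset.sum_product', ← Finset.sum_product']
    refine Finset.sum_bij' (fun x _ => (Function.update x.1 j x.2, x.1 j))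
      (fun x _ => (Function.update x.1 j x.2, x.1 j)) (by simp) (by simp) ?_ ?_ ?_
    · rintro ⟨K, m⟩ _
      simp
    · rintro ⟨K, m⟩ _
      simp
    · rintro ⟨K, m⟩ _
      simp only [Function.update_self]
      rw [hpr j]
      have h1 : ∏ i ∈ univ.erase j, g (Function.update K j m i) (J i) =
          ∏ i ∈ univ.erase j, g (K i) (J i) :=
        Finset.prod_congr rfl fun i hi => by
          rw [Function.update_of_ne (Finset.ne_of_mem_erase hi)]
      rw [h1]
      ring
  calc act Z (pull g s) J = ∑ j, ∑ l, Z l (J j) * pull g s (Function.update J j l) := rfl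
    _ = ∑ j, ∑ K : Fin k → Fin n, (∏ i, g (K i) (J i)) *
        ∑ m, Y m (K j) * s (Function.update K j m) := by
      refine Finset.sum_congr rfl fun j _ => ?_
      rw [hL, hR, hY]
    _ = pull g (act Y s) J := by
      rw [Finset.sum_comm]
      simp only [pull, act, Finset.mul_sum]

/-- products over the orbits of an involution -/
lemma prod_split (σ : Fin k → Fin k) (hσ : ∀ j, σ (σ j) = j) (f : Fin k → ℂ) :
    ∏ j, f j = (∏ j with j < σ j, f j * f (σ j)) * ∏ j with σ j = j, f j := by
  have h1 : ∏ j with j < σ j, f (σ j) = ∏ j with σ j < j, f j := by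
    refine Finset.prod_bij' (fun j _ => σ j) (fun j _ => σ j) ?_ ?_ ?_ ?_ ?_
    · intro j hj
      simpa [hσ] using hj
    · intro j hj
      simpa [hσ] using hj
    · intro j _
      exact hσ j
    · intro j _
      exact hσ j
    · intro j _
      rfl
  rw [Finset.prod_mul_distrib, h1, ← Finset.prod_filter_mul_prod_filter_not univ (fun j => j < σ j),
    ← Finset.prod_filter_mul_prod_filter_not (univ.filter fun j => ¬ j < σ j) (fun j => σ j < j),
    mul_assoc]
  congr 2
  · refine Finset.prod_congr ?_ fun _ _ => rfl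
    ext j
    simp only [Finset.mem_filter, Finset.mem_univ, true_and]
    constructor
    · exact fun h => h.2
    · exact fun h => ⟨not_lt.2 h.le, h⟩
  · refine Finset.prod_congr ?_ fun _ _ => rfl
    ext j
    simp only [Finset.mem_filter, Finset.mem_univ, true_and, not_lt]
    constructor
    · exact fun h => le_antisymm h.1 h.2
    · exact fun h => ⟨h.le, h.ge⟩

/-- the multi-index which is `L` on the pairs and `c` on the fixed points -/
def glue (σ : Fin k → Fin k) (c : Fin k → Fin n) (L : {j : Fin k // j < σ j} → Fin n) :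
    Fin k → Fin n := fun j =>
  if h : j < σ j then L ⟨j, h⟩ else if h' : σ j < σ (σ j) then L ⟨σ j, h'⟩ else c j

lemma glue_lt (σ : Fin k → Fin k) (c : Fin k → Fin n) (L : {j : Fin k // j < σ j} → Fin n)
    (j : {j : Fin k // j < σ j}) : glue σ c L j.1 = L j := by
  rw [glue, dif_pos j.2]

lemma glue_lt' (σ : Fin k → Fin k) (hσ : ∀ j, σ (σ j) = j) (c : Fin k → Fin n)
    (L : {j : Fin k // j < σ j} → Fin n) (j : {j : Fin k // j < σ j}) :
    glue σ c L (σ j.1) = L j := by
  have h1 : ¬ σ j.1 < σ (σ j.1) := by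
    rw [hσ]
    exact not_lt.2 j.2.le
  have h2 : σ (σ j.1) < σ (σ (σ j.1)) := by
    rw [hσ]
    exact j.2
  rw [glue, dif_neg h1, dif_pos h2]
  congr 1
  exact Subtype.ext (hσ _)

lemma glue_fix (σ : Fin k → Fin k) (c : Fin k → Fin n)
    (L : {j : Fin k // j < σ j} → Fin n) {j : Fin k} (hj : σ j = j) : glue σ c L j = c j := by
  rw [glue, dif_neg (by rw [hj]; exact lt_irrefl j), dif_neg (by rw [hj, hj]; exact lt_irrefl j)]

/-- pull-back of a product of pairings and evaluations -/
lemma pull_pairs (P : Matrix (Fin n) (Fin n) ℂ) (σ : Fin k → Fin k) (hσ : ∀ j, σ (σ j) = j)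
    (c J : Fin k → Fin n) :
    ∑ K : Fin k → Fin n, (∏ j, P (K j) (J j)) *
      ((∏ j with j < σ j, if K j = K (σ j) then (1 : ℂ) else 0) *
        ∏ j with σ j = j, if K j = c j then (1 : ℂ) else 0) =
    (∏ j with j < σ j, (Pᵀ * P) (J j) (J (σ j))) * ∏ j with σ j = j, P (c j) (J j) := by
  classical
  have h0 : ∏ j with j < σ j, (Pᵀ * P) (J j) (J (σ j)) =
      ∑ L : {j : Fin k // j < σ j} → Fin n,
        ∏ j : {j : Fin k // j < σ j}, P (L j) (J j.1) * P (L j) (J (σ j.1)) := by
    rw [Finset.prod_subtype (p := fun j => j < σ j) _ (by simp)]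
    simp only [Matrix.mul_apply, Matrix.transpose_apply]
    rw [Finset.prod_univ_sum, Fintype.piFinset_univ]
  rw [h0, Finset.sum_mul]
  symm
  refine Finset.sum_of_injOn (glue σ c) ?_ ?_ ?_ ?_
  · intro L _ L' _ h
    funext j
    rw [← glue_lt σ c L j, ← glue_lt σ c L' j, h]
  · intro L _
    exact Finset.mem_coe.2 (Finset.mem_univ _)
  · intro K _ hK
    by_contra h
    apply hK
    have h1 : (∏ j with j < σ j, if K j = K (σ j) then (1 : ℂ) else 0) ≠ 0 := by
      intro h1
      rw [h1] at h
      simp at h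
    have h2 : (∏ j with σ j = j, if K j = c j then (1 : ℂ) else 0) ≠ 0 := by
      intro h2
      rw [h2] at h
      simp at h
    rw [Finset.prod_ne_zero_iff] at h1 h2
    have h3 : ∀ j, j < σ j → K j = K (σ j) := fun j hj => by
      have := h1 j (by simpa using hj)
      by_contra h4
      simp [h4] at this
    have h4 : ∀ j, σ j = j → K j = c j := fun j hj => by
      have := h2 j (by simpa using hj)
      by_contra h4
      simp [h4] at this
    refine ⟨fun j => K j.1, by simp, ?_⟩
    funext j
    rw [glue]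
    split_ifs with h5 h6
    · rfl
    · rw [h3 _ h6, hσ]
    · refine (h4 j ?_).symm
      rw [hσ] at h6
      exact le_antisymm (not_lt.1 h5) (not_lt.1 h6)
  · intro L _
    have h1 : (∏ j with j < σ j, if glue σ c L j = glue σ c L (σ j) then (1 : ℂ) else 0) = 1 :=
      Finset.prod_eq_one fun j hj => by
        have hj' : j < σ j := by simpa using hj
        rw [glue_lt σ c L ⟨j, hj'⟩, glue_lt' σ hσ c L ⟨j, hj'⟩, if_pos rfl]
    have h2 : (∏ j with σ j = j, if glue σ c L j = c j then (1 : ℂ) else 0) = 1 :=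
      Finset.prod_eq_one fun j hj => by
        have hj' : σ j = j := by simpa using hj
        rw [glue_fix σ c L hj', if_pos rfl]
    rw [h1, h2, mul_one, mul_one, prod_split σ hσ]
    congr 1
    · rw [Finset.prod_subtype (p := fun j => j < σ j) (univ.filter fun j => j < σ j) (by simp)]
      refine Finset.prod_congr rfl fun j _ => ?_
      rw [glue_lt, glue_lt' σ hσ]
    · refine Finset.prod_congr rfl fun j hj => ?_
      have hj' : σ j = j := by simpa using hj
      rw [glue_fix σ c L hj']

/-- functions of the fixed coordinates are combinations of coordinate functions -/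
lemma dec_fix (z : Fin n) (σ : Fin k → Fin k) (u : (Fin k → Fin n) → ℂ)
    (hu : ∀ J J', (∀ j, σ j = j → J j = J' j) → u J = u J') (J : Fin k → Fin n) :
    u J = ∑ c : Fin k → Fin n, (if ∀ j, σ j ≠ j → c j = z then u c else 0) *
      ∏ j with σ j = j, if J j = c j then (1 : ℂ) else 0 := by
  classical
  rw [Finset.sum_eq_single (fun j => if σ j = j then J j else z)]
  · rw [if_pos (fun j hj => if_neg hj), Finset.prod_eq_one, mul_one]
    · refine hu _ _ fun j hj => ?_
      rw [if_pos hj]
    · intro j hj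
      have hj' : σ j = j := by simpa using hj
      simp [hj']
  · intro c _ hc
    by_cases h1 : ∀ j, σ j ≠ j → c j = z
    · obtain ⟨j, hj⟩ := Function.ne_iff.1 hc
      by_cases h2 : σ j = j
      · rw [if_pos h2] at hj
        rw [Finset.prod_eq_zero (i := j) (by simpa using h2) (if_neg (Ne.symm hj)), mul_zero]
      · rw [if_neg h2] at hj
        exact absurd (h1 j h2) hj
    · rw [if_neg h1, zero_mul]
  · simp

end pulls

/-! ### Orthonormal coordinates -/

lemma exists_orth {n : ℕ} (T : HS n) : ∃ g : Matrix (Fin n) (Fin n) ℂ, gᵀ * mC T.Q * g = 1 := by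
  classical
  set QR : Matrix (Fin n) (Fin n) ℝ := T.Q.map (fun q : ℚ => (q : ℝ)) with hQR
  have hdet : T.Q.det ≠ 0 := by
    intro h0
    have h1 : (mC T.Q).det = 0 := by
      have h2 := (Rat.castHom ℂ).map_det T.Q
      rw [h0, map_zero] at h2
      exact h2.symm
    have h3 : (mC T.Q * ((2 : ℂ) • (T.x * T.x) - 1)).det = 0 := by
      rw [Matrix.det_mul, h1, zero_mul]
    obtain ⟨v, hv, hv'⟩ := Matrix.exists_mulVec_eq_zero_iff.2 h3
    have h4 := T.pos v hv
    rw [hv'] at h4
    simp at h4
  have hdR : QR.det ≠ 0 := by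
    have h2 := (Rat.castHom ℝ).map_det T.Q
    have h3 : QR.det = ((T.Q.det : ℚ) : ℝ) := h2.symm
    rw [h3]
    exact_mod_cast hdet
  have hsym : QR.IsHermitian := by
    rw [Matrix.IsHermitian, hQR]
    ext i j
    have h := congrFun (congrFun T.symm i) j
    rw [Matrix.transpose_apply] at h
    simp [Matrix.conjTranspose_apply, h]
  obtain ⟨U, d, hU, -, hQU, -⟩ := Pool.Agent.W927.PG.spec QR hsym
  have hd : ∀ i, d i ≠ 0 := by
    have h1 := congrArg Matrix.det hQU
    rw [Matrix.det_mul, Matrix.det_mul, Matrix.det_diagonal, mul_comm] at h1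
    have h2 : U.det ≠ 0 := by
      intro h2
      have h3 := congrArg Matrix.det hU
      rw [Matrix.det_mul, h2, mul_zero, Matrix.det_one] at h3
      exact zero_ne_one h3
    have h3 := mul_left_cancel₀ h2 h1
    intro i hi
    apply hdR
    rw [h3]
    refine Finset.prod_eq_zero (Finset.mem_univ i) ?_
    simpa using hi
  have hc : ∀ i, ∃ c : ℂ, c ^ 2 = ((d i : ℝ) : ℂ)⁻¹ := fun i =>
    IsAlgClosed.exists_pow_nat_eq _ (by norm_num)
  choose c hc using hc
  set UC : Matrix (Fin n) (Fin n) ℂ := U.map (fun r : ℝ => (r : ℂ)) with hUC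
  have h1 : mC T.Q * UC = UC * diagonal (fun i => ((d i : ℝ) : ℂ)) := by
    have h2 := congrArg (fun M : Matrix (Fin n) (Fin n) ℝ => M.map (fun r : ℝ => (r : ℂ))) hQU
    ext i j
    have h3 := congrFun (congrFun h2 i) j
    simp only [Matrix.map_apply, Matrix.mul_apply, Complex.ofReal_sum, Complex.ofReal_mul] at h3
    simp only [Matrix.mul_apply, mC, hUC, Matrix.map_apply]
    rw [hQR] at h3
    simp only [Matrix.map_apply, Complex.ofReal_ratCast] at h3
    rw [h3]
    refine Finset.sum_congr rfl fun l _ => ?_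
    congr 1
    by_cases hl : l = j
    · subst hl
      simp
    · simp [hl]
  have h2 : UCᵀ * UC = 1 := by
    ext i j
    have h3 := congrArg (fun r : ℝ => (r : ℂ)) (congrFun (congrFun hU i) j)
    simp only [Matrix.mul_apply, Matrix.conjTranspose_apply, star_trivial, Complex.ofReal_sum,
      Complex.ofReal_mul] at h3
    simp only [Matrix.mul_apply, Matrix.transpose_apply, hUC, Matrix.map_apply]
    rw [h3]
    by_cases hl : i = j
    · subst hl
      simp
    · simp [hl]
  refine ⟨UC * diagonal c, ?_⟩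
  rw [Matrix.transpose_mul, Matrix.diagonal_transpose]
  calc diagonal c * UCᵀ * mC T.Q * (UC * diagonal c) =
      diagonal c * UCᵀ * (mC T.Q * UC) * diagonal c := by simp only [mul_assoc]
    _ = diagonal c * (UCᵀ * UC) * diagonal (fun i => ((d i : ℝ) : ℂ)) * diagonal c := by
      rw [h1]
      simp only [mul_assoc]
    _ = 1 := by
      rw [h2, mul_one, Matrix.diagonal_mul_diagonal, Matrix.diagonal_mul_diagonal,
        ← Matrix.diagonal_one]
      congr 1
      funext i
      have h3 : ((d i : ℝ) : ℂ) ≠ 0 := by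
        exact_mod_cast hd i
      have h4 : c i * ((d i : ℝ) : ℂ) * c i = c i ^ 2 * ((d i : ℝ) : ℂ) := by ring
      rw [h4, hc, inv_mul_cancel₀ h3]

/-- (GQ) -/
theorem gq : S_g1 → S_gq := by
  intro hg1 n k p q l T htr hn hq hk W hW hW'
  obtain ⟨g, hg⟩ := exists_orth T
  set h : Matrix (Fin n) (Fin n) ℂ := gᵀ * mC T.Q with hh
  have hgh : g * h = 1 := mul_eq_one_comm.1 hg
  have hQT : (mC T.Q)ᵀ = mC T.Q := by
    have := congrArg mC T.symm
    rwa [show mC (T.Qᵀ) = (mC T.Q)ᵀ from rfl] at this
  have hhT : hᵀ = mC T.Q * g := by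
    rw [hh, Matrix.transpose_mul, Matrix.transpose_transpose, hQT]
  have hhh : hᵀ * h = mC T.Q := by
    rw [hhT, mul_assoc, hgh, mul_one]
  -- the Hodge operator in orthonormal coordinates
  have hX1 : (h * T.x * g)ᵀ = -(h * T.x * g) := by
    have e : T.xᵀ * mC T.Q = -(mC T.Q * T.x) := eq_neg_of_add_eq_zero_left T.skew
    calc (h * T.x * g)ᵀ = gᵀ * (T.xᵀ * mC T.Q) * g := by
          rw [Matrix.transpose_mul, Matrix.transpose_mul, hhT]
          simp only [mul_assoc]
      _ = -(h * T.x * g) := by
          rw [e, mul_neg, neg_mul, hh]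
          simp only [mul_assoc]
  have hX2 : h * T.x * g * (h * T.x * g) * (h * T.x * g) = h * T.x * g := by
    calc h * T.x * g * (h * T.x * g) * (h * T.x * g) =
        h * T.x * (g * h) * T.x * (g * h) * T.x * g := by simp only [mul_assoc]
      _ = h * (T.x * T.x * T.x) * g := by
        rw [hgh]
        simp only [mul_assoc, mul_one]
      _ = h * T.x * g := by rw [T.cube]
  have hX3 : (h * T.x * g * (h * T.x * g)).trace = 2 * p := by
    rw [← htr]
    calc (h * T.x * g * (h * T.x * g)).trace = (h * (T.x * (g * h) * T.x * g)).trace := by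
          simp only [mul_assoc]
      _ = (T.x * T.x).trace := by
        rw [Matrix.trace_mul_comm, hgh, mul_one, mul_assoc, mul_assoc, hgh, mul_one]
  have hact : ∀ (Z : Matrix (Fin n) (Fin n) ℂ) (w : (Fin k → Fin n) → ℂ),
      act Z (pull g w) = pull g (act (g * Z * h) w) := fun Z w =>
    act_pull (by rw [mul_assoc, hg, mul_one]) w
  have hM := hg1 n k p l (h * T.x * g) hX1 hX2 hX3 hk (by omega)
    ((cspan W).map (pullL g)) ?_ ?_
  · intro w hw
    refine descend _ w ?_
    have h1 : pull g (cx w) ∈ insC n k l :=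
      hM ⟨cx w, Submodule.subset_span ⟨w, hw, rfl⟩, rfl⟩
    have h2 : cx w ∈ (insC n k l).map (pullL h) :=
      ⟨_, h1, by
        change pull h (pull g (cx w)) = cx w
        rw [pull_pull, hgh, pull_one]⟩
    have h3 : (insC n k l).map (pullL h) ≤
        Submodule.span ℂ ((fun (t : (Fin k → Fin n) → ℚ) J => (t J : ℂ)) ''
          (T.ins k l : Set ((Fin k → Fin n) → ℚ))) := by
      rw [insC, Submodule.map_span, Submodule.span_le]
      rintro _ ⟨s, ⟨σ, u, hσ, hl, hu, hs⟩, rfl⟩
      have z : Fin n := ⟨0, by omega⟩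
      -- first decomposition
      set a : (Fin k → Fin n) → ℂ := fun c => if ∀ j, σ j ≠ j → c j = z then u c else 0 with ha
      have e1 : pullL h s = ∑ c : Fin k → Fin n, a c • fun J =>
          (∏ j with j < σ j, mC T.Q (J j) (J (σ j))) * ∏ j with σ j = j, h (c j) (J j) := by
        funext J
        rw [Finset.sum_apply]
        simp only [Pi.smul_apply, smul_eq_mul]
        conv_rhs =>
          enter [2, c]
          rw [← hhh, ← pull_pairs h σ hσ c J, Finset.mul_sum]
        rw [Finset.sum_comm]
        change ∑ K : Fin k → Fin n, (∏ j, h (K j) (J j)) * s K = _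
        refine Finset.sum_congr rfl fun K _ => ?_
        rw [hs K, dec_fix z σ u hu K, Finset.mul_sum, Finset.mul_sum]
        refine Finset.sum_congr rfl fun c _ => ?_
        rw [ha]
        ring
      rw [e1]
      refine Submodule.sum_mem _ fun c _ => Submodule.smul_mem _ _ ?_
      -- second decomposition
      have e2 : (fun J : Fin k → Fin n =>
          (∏ j with j < σ j, mC T.Q (J j) (J (σ j))) * ∏ j with σ j = j, h (c j) (J j)) =
          ∑ c' : Fin k → Fin n, (if ∀ j, σ j ≠ j → c' j = z then
            (∏ j with σ j = j, h (c j) (c' j)) else 0) • fun J =>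
            (((∏ j with j < σ j, T.Q (J j) (J (σ j))) *
              ∏ j with σ j = j, if J j = c' j then (1 : ℚ) else 0 : ℚ) : ℂ) := by
        funext J
        rw [Finset.sum_apply]
        simp only [Pi.smul_apply, smul_eq_mul]
        rw [dec_fix z σ (fun J => ∏ j with σ j = j, h (c j) (J j)) (fun J J' hJ =>
          Finset.prod_congr rfl fun j hj => by rw [hJ j (by simpa using hj)]) J, Finset.mul_sum]
        refine Finset.sum_congr rfl fun c' _ => ?_
        rw [Rat.cast_mul, Rat.cast_prod, Rat.cast_prod]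
        have e3 : ∀ j, ((if J j = c' j then (1 : ℚ) else 0 : ℚ) : ℂ) =
            if J j = c' j then (1 : ℂ) else 0 := fun j => by split_ifs <;> simp
        simp only [e3, mC, Matrix.map_apply]
        ring
      rw [e2]
      refine Submodule.sum_mem _ fun c' _ => Submodule.smul_mem _ _ (Submodule.subset_span ?_)
      refine ⟨fun J => (∏ j with j < σ j, T.Q (J j) (J (σ j))) *
              ∏ j with σ j = j, (if J j = c' j then (1 : ℚ) else 0), ?_, rfl⟩
      refine Submodule.subset_span ⟨σ, _, hσ, hl, ?_, fun J => rfl⟩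
      intro J J' hJ
      exact Finset.prod_congr rfl fun j hj => by rw [hJ j (by simpa using hj)]
    exact h3 h2
  · -- stability under `so(n)`
    rintro Z hZ _ ⟨w, hw, rfl⟩
    refine ⟨act (g * Z * h) w, hW _ ?_ w hw, (hact Z w).symm⟩
    rw [Matrix.transpose_mul (g * Z) h, Matrix.transpose_mul g Z, hZ, hhT]
    have h1 : mC T.Q * g * (-Z * gᵀ) * mC T.Q = -(mC T.Q * (g * Z * h)) := by
      rw [hh]
      simp only [mul_assoc, neg_mul, mul_neg]
    rw [h1, neg_add_cancel]
  · -- weights
    rintro a ha _ ⟨w, hw, rfl⟩ hs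
    have h1 : act T.x w = (a : ℂ) • w := by
      have h2 : act (h * T.x * g) (pull g w) = (a : ℂ) • pull g w := hs
      rw [hact] at h2
      have h3 : g * (h * T.x * g) * h = T.x := by
        calc g * (h * T.x * g) * h = (g * h) * T.x * (g * h) := by simp only [mul_assoc]
          _ = T.x := by rw [hgh, one_mul, mul_one]
      rw [h3] at h2
      have h4 := congrArg (pull h) h2
      rw [pull_pull, hgh, pull_one] at h4
      rw [h4]
      change pullL h ((a : ℂ) • pullL g w) = _
      rw [map_smul]
      change (a : ℂ) • pull h (pull g w) = _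
      rw [pull_pull, hgh, pull_one]
    change pull g w = 0
    rw [hW' a ha w hw h1]
    exact map_zero (pullL g)

end

end Pool.Agent.W563.PG.Gq
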